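import Pool.Agent.MP_826def_gt.BT.Kit

/-!
The Gysin sequence of a sphere bundle.
-/

namespace Pool.Agent.MP_826def_gt.BT

open Set Topology Pool.Agent.MP_826def_gt.MU

noncomputable section

variable {X X' S S' : Type} [TopologicalSpace X] [TopologicalSpace X'] [TopologicalSpace S]
  [TopologicalSpace S']

theorem fix_closed (ξ : Bun X) : IsClosed {z : X × ξ.W | ξ.p z.1 z.2 = z.2} :=
  isClosed_eq ((ξ.p.continuous.comp continuous_fst).clm_apply continuous_snd) continuous_snd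

theorem p_p (ξ : Bun X) (x : X) (w : ξ.W) : ξ.p x (ξ.p x w) = ξ.p x w :=
  congrArg (fun q : ξ.W →L[ℂ] ξ.W => q w) (ξ.idem x)

/-- The closed disc bundle. -/
abbrev Dsc (ξ : Bun X) : Type := {z : X × ξ.W // ξ.p z.1 z.2 = z.2 ∧ ‖z.2‖ ≤ 1}

/-- The open disc bundle. -/
abbrev Opn (ξ : Bun X) : Type := {d : Dsc ξ // ‖d.1.2‖ < 1}

theorem dsc_closed (ξ : Bun X) : IsClosed {z : X × ξ.W | ξ.p z.1 z.2 = z.2 ∧ ‖z.2‖ ≤ 1} :=
  (fix_closed ξ).inter (isClosed_le continuous_snd.norm continuous_const)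

instance (ξ : Bun X) [LocallyCompactSpace X] : LocallyCompactSpace (Dsc ξ) :=
  (dsc_closed ξ).locallyCompactSpace

/-- A closed set of vectors of norm at most one is proper over the base. -/
theorem proper_of_bdd {E : Type} [TopologicalSpace E] {W : FD} (π : C(E, X)) (t : C(E, W))
    (h : IsClosedEmbedding fun e => (π e, t e)) (hb : ∀ e, ‖t e‖ ≤ 1) : IsProperMap π := by
  let t' : E → Metric.closedBall (0 : W) 1 := fun e => ⟨t e, mem_closedBall_zero_iff.2 (hb e)⟩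
  have h1 : IsProperMap fun e => (π e, t' e) :=
    isProperMap_of_comp_of_inj (g := Prod.map id Subtype.val)
      (π.continuous.prodMk (t.continuous.subtype_mk _)) (continuous_id.prodMap continuous_subtype_val)
      h.isProperMap (Function.injective_id.prodMap Subtype.val_injective)
  exact isProperMap_fst_of_compactSpace.comp h1

def dπ (ξ : Bun X) : C(Dsc ξ, X) := ⟨fun d => d.1.1, by fun_prop⟩

def dz (ξ : Bun X) : C(X, Dsc ξ) :=
  ⟨fun x => ⟨(x, 0), map_zero _, by simp⟩, (continuous_id.prodMk continuous_const).subtype_mk _⟩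

def dj (ξ : Bun X) : C(Opn ξ, Dsc ξ) := ⟨Subtype.val, continuous_subtype_val⟩

def oπ (ξ : Bun X) : C(Opn ξ, X) := ⟨fun d => d.1.1.1, by fun_prop⟩

def oz (ξ : Bun X) : C(X, Opn ξ) :=
  ⟨fun x => ⟨dz ξ x, (norm_zero (E := ξ.W)).trans_lt zero_lt_one⟩, (dz ξ).continuous.subtype_mk _⟩

def ot (ξ : Bun X) : C(Opn ξ, ξ.W) :=
  ⟨fun d => ((1 - ‖d.1.1.2‖)⁻¹ : ℝ) • d.1.1.2,
    (Continuous.inv₀ (f := fun d : Opn ξ => 1 - ‖d.1.1.2‖) (by fun_prop)
      fun d => (sub_pos.2 d.2).ne').smul (by fun_prop)⟩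

theorem dπ_proper (ξ : Bun X) : IsProperMap (dπ ξ) :=
  proper_of_bdd (dπ ξ) ⟨fun d => d.1.2, by fun_prop⟩ (dsc_closed ξ).isClosedEmbedding_subtypeVal
    fun d => d.2.2

theorem dz_proper (ξ : Bun X) : IsProperMap (dz ξ) := by
  have h1 : IsProperMap fun x : X => (x, (0 : ξ.W)) := by
    have : IsClosedEmbedding fun x : X => (x, (0 : ξ.W)) := by
      refine ⟨isEmbedding_prodMkLeft _, ?_⟩
      have : (range fun x : X => (x, (0 : ξ.W))) = {z | z.2 = 0} := by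
        ext z
        exact ⟨by rintro ⟨x, rfl⟩; rfl, fun e => ⟨z.1, Prod.ext rfl e.symm⟩⟩
      rw [this]
      exact isClosed_eq continuous_snd continuous_const
    exact this.isProperMap
  exact isProperMap_of_comp_of_inj (g := Subtype.val) (dz ξ).continuous continuous_subtype_val h1
    Subtype.val_injective

theorem dj_open (ξ : Bun X) : IsOpenEmbedding (dj ξ) :=
  (isOpen_lt (by fun_prop) continuous_const : IsOpen {d : Dsc ξ | ‖d.1.2‖ < 1}).isOpenEmbedding_subtypeVal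

theorem p_smul (ξ : Bun X) (x : X) (r : ℝ) (w : ξ.W) : ξ.p x (r • w) = r • ξ.p x w :=
  (ξ.p x).map_smul_of_tower r w

/-- The radial contraction of the disc bundle. -/
def dF (ξ : Bun X) : C(Dsc ξ × unitInterval, Dsc ξ) :=
  ⟨fun d => ⟨(d.1.1.1, (d.2 : ℝ) • d.1.1.2), by rw [p_smul, d.1.2.1], by
      rw [norm_smul, Real.norm_of_nonneg d.2.2.1]
      exact mul_le_one₀ d.2.2.2 (norm_nonneg _) d.1.2.2⟩, by fun_prop⟩

theorem dF_proper [T2Space X] (ξ : Bun X) : IsProperMap (dF ξ) :=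
  isProperMap_of_comp_of_t2 (g := dπ ξ) (dF ξ).continuous (dπ ξ).continuous
    ((dπ_proper ξ).comp (isProperMap_fst_of_compactSpace (X := Dsc ξ) (Y := unitInterval)) :)

theorem ot_tot (ξ : Bun X) : IsTot ξ (oπ ξ) (ot ξ) := by
  have k : ∀ w : ξ.W, ‖((1 + ‖w‖)⁻¹ : ℝ) • w‖ = 1 - (1 + ‖w‖)⁻¹ := fun w => by
    have : 0 < 1 + ‖w‖ := by positivity
    rw [norm_smul, Real.norm_of_nonneg (inv_nonneg.2 this.le)]
    field_simp
    ring
  have k' : ∀ w : ξ.W, ‖((1 + ‖w‖)⁻¹ : ℝ) • w‖ < 1 := fun w => by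
    rw [k]
    exact sub_lt_self _ (by positivity)
  let r : X × ξ.W → Opn ξ := fun z =>
    ⟨⟨(z.1, ((1 + ‖ξ.p z.1 z.2‖)⁻¹ : ℝ) • ξ.p z.1 z.2), by rw [p_smul, p_p], (k' _).le⟩, k' _⟩
  have hp : Continuous fun z : X × ξ.W => ξ.p z.1 z.2 :=
    (ξ.p.continuous.comp continuous_fst).clm_apply continuous_snd
  have hr : Continuous r :=
    ((continuous_fst.prodMk ((Continuous.inv₀ (f := fun z : X × ξ.W => 1 + ‖ξ.p z.1 z.2‖)
      (continuous_const.add hp.norm) fun z => by positivity).smul hp)).subtype_mk _).subtype_mk _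
  have hf : ∀ d : Opn ξ, ξ.p (oπ ξ d) (ot ξ d) = ot ξ d := fun d =>
    (p_smul ξ _ _ _).trans (congrArg (fun w => ((1 - ‖d.1.1.2‖)⁻¹ : ℝ) • w) d.1.2.1)
  constructor
  · refine Function.LeftInverse.isEmbedding (f := r) (fun d => ?_) hr
      ((oπ ξ).continuous.prodMk (ot ξ).continuous)
    refine Subtype.ext (Subtype.ext (Prod.ext rfl ?_))
    show ((1 + ‖ξ.p (oπ ξ d) (ot ξ d)‖)⁻¹ : ℝ) • ξ.p (oπ ξ d) (ot ξ d) = d.1.1.2
    have h1 : 0 < 1 - ‖d.1.1.2‖ := sub_pos.2 d.2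
    rw [hf]
    show ((1 + ‖((1 - ‖d.1.1.2‖)⁻¹ : ℝ) • d.1.1.2‖)⁻¹ : ℝ) • ((1 - ‖d.1.1.2‖)⁻¹ : ℝ) • d.1.1.2 = _
    rw [norm_smul, Real.norm_of_nonneg (inv_nonneg.2 h1.le), smul_smul]
    have : (1 + (1 - ‖d.1.1.2‖)⁻¹ * ‖d.1.1.2‖)⁻¹ * (1 - ‖d.1.1.2‖)⁻¹ = 1 := by
      rw [← mul_inv, add_mul, one_mul, mul_right_comm, inv_mul_cancel₀ h1.ne', one_mul,
        sub_add_cancel, inv_one]
    rw [this, one_smul]
  · ext z
    refine ⟨by rintro ⟨d, rfl⟩; exact hf d, fun hz => ⟨r z, Prod.ext rfl ?_⟩⟩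
    have hz' : ξ.p z.1 z.2 = z.2 := hz
    show ((1 - ‖((1 + ‖ξ.p z.1 z.2‖)⁻¹ : ℝ) • ξ.p z.1 z.2‖)⁻¹ : ℝ) •
      ((1 + ‖ξ.p z.1 z.2‖)⁻¹ : ℝ) • ξ.p z.1 z.2 = z.2
    rw [k, hz', sub_sub_cancel, inv_inv, smul_smul, mul_inv_cancel₀ (by positivity), one_smul]

section sph

variable {ξ : Bun X} {π : C(S, X)} {t : C(S, ξ.W)}

theorem sph_mem (h : IsSph ξ π t) (s : S) : ξ.p (π s) (t s) = t s ∧ ‖t s‖ = 1 :=
  (h.2 ▸ mem_range_self s : (π s, t s) ∈ {z : X × ξ.W | ξ.p z.1 z.2 = z.2 ∧ ‖z.2‖ = 1})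

theorem sph_closed (h : IsSph ξ π t) : IsClosedEmbedding fun s => (π s, t s) :=
  ⟨h.1, h.2 ▸ (fix_closed ξ).inter (isClosed_eq continuous_snd.norm continuous_const)⟩

theorem sph_proper (h : IsSph ξ π t) : IsProperMap π :=
  proper_of_bdd π t (sph_closed h) fun s => (sph_mem h s).2.le

/-- The boundary of the disc bundle. -/
def di (h : IsSph ξ π t) : C(S, Dsc ξ) :=
  ⟨fun s => ⟨(π s, t s), (sph_mem h s).1, (sph_mem h s).2.le⟩,
    (π.continuous.prodMk t.continuous).subtype_mk _⟩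

theorem pair (h : IsSph ξ π t) : Pair (di h) (dj ξ) := by
  have h1 : range (di h) = {d : Dsc ξ | ‖d.1.2‖ = 1} := by
    ext d
    refine ⟨by rintro ⟨s, rfl⟩; exact (sph_mem h s).2, fun hd => ?_⟩
    obtain ⟨s, hs⟩ : d.1 ∈ range fun s => (π s, t s) := h.2 ▸ ⟨d.2.1, hd⟩
    exact ⟨s, Subtype.ext hs⟩
  refine ⟨⟨IsEmbedding.of_comp (di h).continuous continuous_subtype_val h.1, ?_⟩, dj_open ξ, ?_⟩
  · rw [h1]
    exact isClosed_eq (by fun_prop) continuous_const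
  · rw [h1]
    ext d
    exact ⟨by rintro ⟨u, rfl⟩; exact u.2.ne, fun hd => ⟨⟨d, lt_of_le_of_ne d.2.2 hd⟩, rfl⟩⟩

end sph

def dmap (ξ : Bun X) (f : C(X', X)) : C(Dsc (ξ.pull f), Dsc ξ) :=
  ⟨fun d => ⟨(f d.1.1, d.1.2), d.2⟩, by fun_prop⟩

def omap (ξ : Bun X) (f : C(X', X)) : C(Opn (ξ.pull f), Opn ξ) :=
  ⟨fun d => ⟨dmap ξ f d.1, d.2⟩, by fun_prop⟩

theorem dmap_proper (ξ : Bun X) {f : C(X', X)} (hf : IsProperMap f) : IsProperMap (dmap ξ f) :=
  isProperMap_of_comp_of_inj (g := Subtype.val) (dmap ξ f).continuous continuous_subtype_val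
    ((hf.prodMap isProperMap_id).comp
      (dsc_closed (ξ.pull f)).isClosedEmbedding_subtypeVal.isProperMap) Subtype.val_injective

variable [C : Fact Core]

/-- The Thom isomorphism onto the open disc bundle. -/
def th (T : S_Thom) (ξ : Bun X) : H X ≃+ H (Opn ξ) :=
  AddEquiv.ofBijective (Htwist (oπ ξ) (ξ.pull (oπ ξ)) (ot ξ)) (T ξ _ _ (ot_tot ξ)).2.2

theorem th_apply (T : S_Thom) (ξ : Bun X) (y : H X) :
    th T ξ y = Htwist (oπ ξ) (ξ.pull (oπ ξ)) (ot ξ) y := rfl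

theorem disc_bij (A : Api) [T2Space X] (ξ : Bun X) :
    (∀ y, Hpull (dz ξ) (Hpull (dπ ξ) y) = y) ∧ ∀ y, Hpull (dπ ξ) (Hpull (dz ξ) y) = y :=
  Hpull_bij A (dπ ξ) (dz ξ) (dF ξ) (dπ_proper ξ) (dz_proper ξ) (dF_proper ξ) (fun _ => rfl)
    (fun _ => Subtype.ext (Prod.ext rfl (zero_smul ℝ _)))
    (fun _ => Subtype.ext (Prod.ext rfl (one_smul ℝ _)))

theorem push_th (A : Api) (T : S_Thom) [T2Space X] (ξ : Bun X) (y : H X) :
    Hpush (dj ξ) (th T ξ y) = Hpull (dπ ξ) (Heul ξ y) := by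
  have b := Hbc A (dz ξ) (dj ξ) (ContinuousMap.id X) (oz ξ) (dz_proper ξ) (dj_open ξ)
    IsOpenEmbedding.id (fun _ => rfl) fun x _ => ⟨x, rfl⟩
  have e : (ot ξ).comp (oz ξ) = 0 := ContinuousMap.ext fun _ => smul_zero _
  rw [← (disc_bij A ξ).2 (Hpush (dj ξ) (th T ξ y)), b.2, Hpush_id A, th_apply,
    Hpull_twist A _ _ _ _ (T ξ _ _ (ot_tot ξ)).1 b.1]
  exact congrArg (fun σ => Hpull (dπ ξ) (Htwist (ContinuousMap.id X) ξ σ y)) e

open Classical in
/-- The Gysin map. -/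
def gam (δ : DelT) (T : S_Thom) : GysT := fun ξ π t =>
  if h : IsSph ξ π t then (th T ξ).symm.toAddMonoidHom.comp (δ (di h) (dj ξ)) else 0

theorem th_gam (δ : DelT) (T : S_Thom) {ξ : Bun X} {π : C(S, X)} {t : C(S, ξ.W)} (h : IsSph ξ π t)
    (y : H S) : th T ξ (gam δ T ξ π t y) = δ (di h) (dj ξ) y := by
  rw [gam, dif_pos h]
  exact (th T ξ).apply_symm_apply _

theorem gys (A : Api) (l : S_LES) (T : S_Thom) : S_Gys := by
  obtain ⟨δ, hδ⟩ := l
  refine ⟨gam δ T, ?_, ?_, ?_, ?_⟩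
  · intro X S _ _ _ _ ξ π t h
    obtain ⟨e1, e2, e3⟩ := hδ.exact _ _ (pair h)
    obtain ⟨b1, b2⟩ := disc_bij A ξ
    have hP : Function.Injective (Hpull (dπ ξ)) := Function.LeftInverse.injective b1
    have hi : ∀ y, Hpull (di h) (Hpull (dπ ξ) y) = Hpull π y := fun y =>
      A.act.Hcomp _ _ (dπ_proper ξ) (pair h).cl.isProperMap y
    refine ⟨sph_proper h, fun y => ?_, fun y => ?_, fun y => ?_⟩
    · rw [← hi, e1]
      constructor
      · rintro ⟨u, hu⟩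
        obtain ⟨x, rfl⟩ := (th T ξ).surjective u
        exact ⟨x, hP ((push_th A T ξ x).symm.trans hu)⟩
      · rintro ⟨x, rfl⟩
        exact ⟨_, push_th A T ξ x⟩
    · rw [← (th T ξ).map_eq_zero_iff, th_gam δ T h, e2]
      constructor
      · rintro ⟨u, rfl⟩
        exact ⟨Hpull (dz ξ) u, by rw [← hi, b2]⟩
      · rintro ⟨x, rfl⟩
        exact ⟨_, hi x⟩
    · rw [← map_eq_zero_iff _ hP, ← push_th A T, e3]
      constructor
      · rintro ⟨u, hu⟩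
        exact ⟨u, (th T ξ).injective ((th_gam δ T h u).trans hu)⟩
      · rintro ⟨x, rfl⟩
        exact ⟨x, (th_gam δ T h x).symm⟩
  · intro X S X' S' _ _ _ _ _ _ _ _ ξ π t f π' t' F h h' hf e1 e2
    have hF : IsProperMap F := by
      refine isProperMap_of_comp_of_inj (g := fun s => (π s, t s)) F.continuous
        (π.continuous.prodMk t.continuous) ?_ h.1.injective
      have : ((fun s => (π s, t s)) ∘ F) = Prod.map f id ∘ fun s => (π' s, t' s) :=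
        funext fun s => Prod.ext (e1 s) (e2 s)
      rw [this]
      exact (hf.prodMap isProperMap_id).comp (sph_closed h').isProperMap
    refine ⟨hF, fun y => (th T (ξ.pull f)).injective ?_⟩
    have ho : IsProperMap (omap ξ f) := (Hbc A (dmap ξ f) (dj ξ) (dj _) (omap ξ f)
      (dmap_proper ξ hf) (dj_open _) (dj_open _) (fun _ => rfl) (by
        rintro d ⟨u, hu⟩
        exact ⟨⟨d, (congrArg (fun d : Dsc ξ => ‖d.1.2‖) hu).ge.trans_lt u.2⟩, rfl⟩)).1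
    rw [th_gam δ T h', hδ.nat (di h) (dj ξ) (di h') (dj _) (dmap ξ f) F (omap ξ f) (pair h) (pair h')
      (dmap_proper ξ hf) (fun s => Subtype.ext (Prod.ext (e1 s) (e2 s))) (fun _ => rfl),
      ← th_gam δ T h, th_apply, th_apply, Hpull_twist A _ _ _ _ (T ξ _ _ (ot_tot ξ)).1 ho,
      Htwist_pull A _ _ _ _ (T _ _ _ (ot_tot _)).1 hf]
    rfl
  · intro X S K _ _ _ _ _ _ _ ξ π t f h a y
    refine (th T ξ).injective ?_
    rw [th_gam δ T h, th_apply, (A.act.twist f _ _ _ a).2, ← th_apply T, th_gam δ T h]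
    exact hδ.lin (di h) (dj ξ) (f.comp (dπ ξ)) (pair h) a y
  · intro X S _ _ _ _ ξ π t k h hk d e y hy
    have h1 := hδ.deg _ _ (pair h) d e y hy
    rw [← th_gam δ T h] at h1
    have h2 : th T ξ (part (e - k) (gam δ T ξ π t y).1, part (d + 1 - k) (gam δ T ξ π t y).2) =
        th T ξ (gam δ T ξ π t y) := by
      rw [th_apply, Htwist_part A _ (ξ.pull (oπ ξ)) _ k (fun x => hk _), sub_add_cancel, sub_add_cancel]
      exact Prod.ext h1.1 h1.2
    have h3 := (th T ξ).injective h2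
    exact ⟨congrArg Prod.fst h3, congrArg Prod.snd h3⟩

end

end Pool.Agent.MP_826def_gt.BT
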