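import Pool.Agent.MP_826def_gt.MU.Spec

/-!
Formal properties of the groups `H X` (even and odd degrees together).
-/

namespace Pool.Agent.MP_826def_gt.BT

open Set Topology Pool.Agent.MP_826def_gt.MU

noncomputable section

variable {X X' X'' U U' : Type} [TopologicalSpace X] [TopologicalSpace X'] [TopologicalSpace X'']
  [TopologicalSpace U] [TopologicalSpace U']

theorem xR_proper {f : C(X', X)} (hf : IsProperMap f) : IsProperMap (xR f) :=
  hf.prodMap isProperMap_id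

theorem xR_open {j : C(U, X)} (hj : IsOpenEmbedding j) : IsOpenEmbedding (xR j) :=
  hj.prodMap IsOpenEmbedding.id

theorem Tw_xR {g : C(X', X)} {ξ : Bun X'} {σ : C(X', ξ.W)} (h : Tw g ξ σ) :
    Tw (xR g) (ξ.pull ContinuousMap.fst) (σ.comp ContinuousMap.fst) := by
  refine ⟨fun x => h.1 x.1, ?_⟩
  let e : {x : X' × ℝ // σ x.1 = 0} ≃ₜ {x : X' // σ x = 0} × ℝ :=
    { toFun := fun x => (⟨x.1.1, x.2⟩, x.1.2)
      invFun := fun y => ⟨(y.1.1, y.2), y.1.2⟩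
      left_inv := fun _ => rfl
      right_inv := fun _ => rfl
      continuous_toFun := by fun_prop
      continuous_invFun := by fun_prop }
  exact (h.2.prodMap (isProperMap_id (X := ℝ))).comp e.isProperMap

variable [C : Fact Core]

theorem Hpull_apply (f : C(X', X)) (y : H X) : Hpull f y = (pull f y.1, pull (xR f) y.2) := rfl

theorem Hpush_apply (j : C(U, X)) (y : H U) : Hpush j y = (push j y.1, push (xR j) y.2) := rfl

theorem Htwist_apply (g : C(X', X)) (ξ : Bun X') (σ : C(X', ξ.W)) (y : H X) :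
    Htwist g ξ σ y = (twist g ξ σ y.1,
      twist (xR g) (ξ.pull ContinuousMap.fst) (σ.comp ContinuousMap.fst) y.2) := rfl

theorem Hhtpy (A : Api) (F : C(X' × unitInterval, X)) (f g : C(X', X)) (hF : IsProperMap F)
    (h0 : ∀ x, F (x, 0) = f x) (h1 : ∀ x, F (x, 1) = g x) (y : H X) : Hpull f y = Hpull g y := by
  refine Prod.ext (A.fn.htpy F f g hF h0 h1 y.1) ?_
  let e : (X' × ℝ) × unitInterval ≃ₜ (X' × unitInterval) × ℝ :=
    { toFun := fun x => ((x.1.1, x.2), x.1.2)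
      invFun := fun y => ((y.1.1, y.2), y.1.2)
      left_inv := fun _ => rfl
      right_inv := fun _ => rfl
      continuous_toFun := by fun_prop
      continuous_invFun := by fun_prop }
  exact A.fn.htpy ((xR F).comp ⟨e, e.continuous⟩) (xR f) (xR g)
    ((xR_proper hF).comp e.isProperMap) (fun x => Prod.ext (h0 x.1) rfl)
    (fun x => Prod.ext (h1 x.1) rfl) y.2

theorem Hbc (A : Api) (f : C(X', X)) (j : C(U, X)) (j' : C(U', X')) (f' : C(U', U))
    (hf : IsProperMap f) (hj : IsOpenEmbedding j) (hj' : IsOpenEmbedding j')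
    (hc : ∀ u, j (f' u) = f (j' u)) (hr : ∀ x, f x ∈ range j → x ∈ range j') :
    IsProperMap f' ∧ ∀ y, Hpull f (Hpush j y) = Hpush j' (Hpull f' y) := by
  refine ⟨(A.fn.bc f j j' f' hf hj hj' hc hr).1, fun y =>
    Prod.ext ((A.fn.bc f j j' f' hf hj hj' hc hr).2 y.1) ?_⟩
  refine (A.fn.bc (xR f) (xR j) (xR j') (xR f') (xR_proper hf) (xR_open hj) (xR_open hj')
    (fun u => Prod.ext (hc u.1) rfl) ?_).2 y.2
  rintro ⟨x, r⟩ ⟨⟨u, s⟩, e⟩
  obtain ⟨u', e'⟩ := hr x ⟨u, congrArg Prod.fst e⟩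
  exact ⟨(u', r), Prod.ext e' rfl⟩

theorem push_id (A : Api) (y : h X) : push (ContinuousMap.id X) y = y :=
  (A.fn.push_homeo (ContinuousMap.id X) (ContinuousMap.id X) (fun _ => rfl) (fun _ => rfl) y).trans
    (pull_id y)

theorem Hpush_id (A : Api) (y : H X) : Hpush (ContinuousMap.id X) y = y :=
  Prod.ext (push_id A y.1) (push_id A y.2)

theorem Hpush_homeo (A : Api) (j : C(U, X)) (f : C(X, U)) (h1 : ∀ u, f (j u) = u)
    (h2 : ∀ x, j (f x) = x) (y : H U) : Hpush j y = Hpull f y :=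
  Prod.ext (A.fn.push_homeo j f h1 h2 y.1) (A.fn.push_homeo (xR j) (xR f)
    (fun u => Prod.ext (h1 u.1) rfl) (fun u => Prod.ext (h2 u.1) rfl) y.2)

theorem Hpush_comp (A : Api) (j : C(U, X)) (k : C(U', U)) (hj : IsOpenEmbedding j)
    (hk : IsOpenEmbedding k) (y : H U') : Hpush j (Hpush k y) = Hpush (j.comp k) y :=
  Prod.ext (A.fn.push_comp j k hj hk y.1)
    (A.fn.push_comp (xR j) (xR k) (xR_open hj) (xR_open hk) y.2)

theorem Hpull_twist (A : Api) (g : C(X', X)) (ξ : Bun X') (σ : C(X', ξ.W)) (φ : C(X'', X'))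
    (hg : Tw g ξ σ) (hφ : IsProperMap φ) (y : H X) :
    Hpull φ (Htwist g ξ σ y) = Htwist (g.comp φ) (ξ.pull φ) (σ.comp φ) y :=
  Prod.ext ((A.tw.pull_twist g ξ σ φ hg hφ).2 y.1)
    ((A.tw.pull_twist (xR g) _ _ (xR φ) (Tw_xR hg) (xR_proper hφ)).2 y.2)

theorem Htwist_pull (A : Api) (g : C(X'', X')) (ξ : Bun X'') (σ : C(X'', ξ.W)) (f : C(X', X))
    (hg : Tw g ξ σ) (hf : IsProperMap f) (y : H X) :
    Htwist g ξ σ (Hpull f y) = Htwist (f.comp g) ξ σ y :=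
  Prod.ext ((A.tw.twist_pull g ξ σ f hg hf).2 y.1)
    ((A.tw.twist_pull (xR g) _ _ (xR f) (Tw_xR hg) (xR_proper hf)).2 y.2)

theorem Htwist_twist (A : Api) (g : C(X'', X')) (ξ : Bun X'') (σ : C(X'', ξ.W)) (g' : C(X', X))
    (ξ' : Bun X') (σ' : C(X', ξ'.W)) (hg : Tw g ξ σ) (hg' : Tw g' ξ' σ') (y : H X) :
    Htwist g ξ σ (Htwist g' ξ' σ' y) =
      Htwist (g'.comp g) ((ξ'.pull g).sum ξ) ((σ'.comp g).prodMk σ) y :=
  Prod.ext ((A.tw.twist_twist g ξ σ g' ξ' σ' hg hg').2 y.1)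
    ((A.tw.twist_twist (xR g) _ _ (xR g') _ _ (Tw_xR hg) (Tw_xR hg')).2 y.2)

theorem Htwist_iso (A : Api) (g : C(X', X)) (ξ η : Bun X') (σ : C(X', ξ.W)) (τ : C(X', η.W))
    (u : C(X', ξ.W →L[ℂ] η.W)) (v : C(X', η.W →L[ℂ] ξ.W)) (hg : Tw g ξ σ)
    (hu : ∀ x, v x ∘L u x = ξ.p x ∧ u x ∘L v x = η.p x ∧ u x (σ x) = τ x) (y : H X) :
    Htwist g ξ σ y = Htwist g η τ y :=
  Prod.ext ((A.tw.iso g ξ η σ τ u v hg hu).2 y.1)
    ((A.tw.iso (xR g) (ξ.pull ContinuousMap.fst) (η.pull ContinuousMap.fst) _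
      (τ.comp ContinuousMap.fst) (u.comp ContinuousMap.fst) (v.comp ContinuousMap.fst) (Tw_xR hg)
      fun x => hu x.1).2 y.2)

theorem HbcT (A : Api) (g : C(X', X)) (ξ : Bun X') (σ : C(X', ξ.W)) (j : C(U, X))
    (j' : C(U', X')) (g' : C(U', U)) (hg : Tw g ξ σ) (hj : IsOpenEmbedding j)
    (hj' : IsOpenEmbedding j') (hc : ∀ u, j (g' u) = g (j' u))
    (hr : ∀ x, σ x = 0 → g x ∈ range j → x ∈ range j') (y : H U) :
    Htwist g ξ σ (Hpush j y) = Hpush j' (Htwist g' (ξ.pull j') (σ.comp j') y) := by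
  refine Prod.ext ((A.fn.bcT g ξ σ j j' g' hg hj hj' hc hr).2 y.1) ?_
  refine (A.fn.bcT (xR g) _ _ (xR j) (xR j') (xR g') (Tw_xR hg) (xR_open hj) (xR_open hj')
    (fun u => Prod.ext (hc u.1) rfl) ?_).2 y.2
  rintro ⟨x, r⟩ h0 ⟨⟨u, s⟩, e⟩
  obtain ⟨u', e'⟩ := hr x h0 ⟨u, congrArg Prod.fst e⟩
  exact ⟨(u', r), Prod.ext e' rfl⟩

/-- The twisting map shifts the degrees by the rank. -/
theorem Htwist_part (A : Api) (g : C(X', X)) (ξ : Bun X') (σ : C(X', ξ.W)) (k : ℕ) (hk : ξ.Rk k)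
    (d e : ℤ) (y : H X) : Htwist g ξ σ (part d y.1, part e y.2) =
      (part (d + k) (Htwist g ξ σ y).1, part (e + k) (Htwist g ξ σ y).2) :=
  Prod.ext (A.deg.twist g ξ σ k hk d y.1).symm
    (A.deg.twist (xR g) (ξ.pull ContinuousMap.fst) _ k (fun x => hk x.1) e y.2).symm

/-- A proper homotopy equivalence with a section. -/
theorem Hpull_bij (A : Api) (π : C(X', X)) (z : C(X, X')) (F : C(X' × unitInterval, X'))
    (hπ : IsProperMap π) (hz : IsProperMap z) (hF : IsProperMap F) (e : ∀ x, π (z x) = x)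
    (h0 : ∀ x, F (x, 0) = z (π x)) (h1 : ∀ x, F (x, 1) = x) :
    (∀ y, Hpull z (Hpull π y) = y) ∧ ∀ y, Hpull π (Hpull z y) = y := by
  constructor
  · intro y
    rw [A.act.Hcomp π z hπ hz, show π.comp z = ContinuousMap.id X from ContinuousMap.ext e,
      A.act.Hid]
  · intro y
    rw [A.act.Hcomp z π hz hπ, Hhtpy A F (z.comp π) (ContinuousMap.id X') hF h0 h1, A.act.Hid]

end

end Pool.Agent.MP_826def_gt.BT
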