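import Pool.Agent.MP_826def_gt.MU.Spec

/-!
The Thom isomorphism.
-/

namespace Pool.Agent.MP_826def_gt.BT

open Set Topology MU

noncomputable section

variable {X X' E T : Type} [TopologicalSpace X] [TopologicalSpace X'] [TopologicalSpace E]
  [TopologicalSpace T]

/-- A section whose zero set is `X × T` over `X` with `T` compact. -/
theorem tw_of_inv [CompactSpace T] (g : C(X', X)) (ξ : Bun X') (σ : C(X', ξ.W)) (a : C(X × T, X'))
    (b : C(X', T)) (hs : ∀ x, ξ.p x (σ x) = σ x) (h1 : ∀ z, σ (a z) = 0) (h2 : ∀ z, g (a z) = z.1)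
    (h3 : ∀ z, b (a z) = z.2) (h4 : ∀ x, σ x = 0 → a (g x, b x) = x) : Tw g ξ σ := by
  let φ : {x // σ x = 0} ≃ₜ X × T :=
    { toFun := fun x => (g x.1, b x.1)
      invFun := fun z => ⟨a z, h1 z⟩
      left_inv := fun x => Subtype.ext (h4 x.1 x.2)
      right_inv := fun z => Prod.ext (h2 z) (h3 z)
      continuous_toFun := (g.continuous.comp continuous_subtype_val).prodMk
        (b.continuous.comp continuous_subtype_val)
      continuous_invFun := a.continuous.subtype_mk _ }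
  exact ⟨hs, isProperMap_fst_of_compactSpace.comp φ.isProperMap⟩

theorem idem (ξ : Bun X) (x : X) (w : ξ.W) : ξ.p x (ξ.p x w) = ξ.p x w :=
  congrArg (fun q : ξ.W →L[ℂ] ξ.W => q w) (ξ.idem x)

section

variable {ξ : Bun X} {π : C(E, X)} {t : C(E, ξ.W)}

theorem tot_sec (H : IsTot ξ π t) (e : E) : ξ.p (π e) (t e) = t e := by
  have : (π e, t e) ∈ range fun e => (π e, t e) := mem_range_self e
  rwa [H.2] at this

theorem tot_ext (H : IsTot ξ π t) {e e' : E} (h1 : π e = π e') (h2 : t e = t e') : e = e' :=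
  H.1.injective (Prod.ext h1 h2)

theorem ex_rho (H : IsTot ξ π t) :
    ∃ ρ : C(X × ξ.W, E), (∀ z, π (ρ z) = z.1) ∧ ∀ z, t (ρ z) = ξ.p z.1 z.2 := by
  have h : ∀ z : X × ξ.W, ∃ e, (π e, t e) = (z.1, ξ.p z.1 z.2) := fun z => by
    have : (z.1, ξ.p z.1 z.2) ∈ range fun e => (π e, t e) := by
      rw [H.2]
      exact idem ξ z.1 z.2
    exact this
  choose r hr using h
  have hc : Continuous r := by
    rw [H.1.continuous_iff]
    have : (fun e => (π e, t e)) ∘ r = fun z => (z.1, ξ.p z.1 z.2) := funext hr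
    rw [this]
    exact continuous_fst.prodMk ((ξ.p.continuous.comp continuous_fst).clm_apply continuous_snd)
  exact ⟨⟨r, hc⟩, fun z => congrArg Prod.fst (hr z), fun z => congrArg Prod.snd (hr z)⟩

theorem tot_tw (H : IsTot ξ π t) : Tw π (ξ.pull π) t := by
  obtain ⟨ρ, h1, h2⟩ := ex_rho H
  refine tw_of_inv (T := Unit) π (ξ.pull π) t
    (ρ.comp (ContinuousMap.fst.prodMk (ContinuousMap.const _ 0))) (ContinuousMap.const _ ())
    (tot_sec H) (fun z => ?_) (fun z => h1 _) (fun _ => rfl) fun e he => tot_ext H (h1 _) ?_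
  · exact (h2 _).trans (map_zero _)
  · exact ((h2 _).trans (map_zero _)).trans he.symm

theorem tot_R (H : IsTot ξ π t) :
    IsTot (ξ.pull (ContinuousMap.fst : C(X × ℝ, X))) (xR π) (t.comp ContinuousMap.fst) := by
  let φ : (X × ξ.W) × ℝ ≃ₜ (X × ℝ) × ξ.W :=
    { toFun := fun z => ((z.1.1, z.2), z.1.2)
      invFun := fun z => ((z.1.1, z.2), z.1.2)
      left_inv := fun _ => rfl
      right_inv := fun _ => rfl
      continuous_toFun := by fun_prop
      continuous_invFun := by fun_prop }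
  refine ⟨φ.isEmbedding.comp (H.1.prodMap (IsEmbedding.id (X := ℝ))), ?_⟩
  ext z
  constructor
  · rintro ⟨e, rfl⟩
    exact tot_sec H e.1
  · intro hz
    have : (z.1.1, z.2) ∈ range fun e => (π e, t e) := by
      rw [H.2]
      exact hz
    obtain ⟨e, he⟩ := this
    have h1 : π e = z.1.1 := congrArg Prod.fst he
    have h2 : t e = z.2 := congrArg Prod.snd he
    exact ⟨(e, z.1.2), Prod.ext (Prod.ext h1 rfl) h2⟩

end

/-- The section `w - p w` of the complementary bundle. -/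
def csec (ξ : Bun X) : C(X × ξ.W, ξ.W) :=
  ⟨fun z => z.2 - ξ.p z.1 z.2,
    continuous_snd.sub ((ξ.p.continuous.comp continuous_fst).clm_apply continuous_snd)⟩

theorem csec_apply (ξ : Bun X) (z : X × ξ.W) : csec ξ z = z.2 - ξ.p z.1 z.2 := rfl

/-- The parameter as a complex number. -/
def al (s : unitInterval) : ℂ := ((s : ℝ) : ℂ)

theorem al_cont : Continuous al := Complex.continuous_ofReal.comp continuous_subtype_val

/-- The denominator. -/
def den (s : unitInterval) : ℂ := (1 - al s) ^ 2 + al s ^ 2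

theorem den_ne (s : unitInterval) : den s ≠ 0 := by
  have : (0 : ℝ) < (1 - s) ^ 2 + (s : ℝ) ^ 2 := by nlinarith [sq_nonneg (2 * (s : ℝ) - 1)]
  have h : den s = (((1 - s) ^ 2 + (s : ℝ) ^ 2 : ℝ) : ℂ) := by
    rw [den, al]
    push_cast
    rfl
  rw [h]
  exact Complex.ofReal_ne_zero.2 this.ne'

theorem den_cont : Continuous den :=
  ((continuous_const.sub al_cont).pow 2).add (al_cont.pow 2)

section ops

variable {W : FD} (p : W →L[ℂ] W)

def uA : W × W →L[ℂ] W :=
  p ∘L ContinuousLinearMap.fst ℂ W W +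
    (ContinuousLinearMap.id ℂ W - p) ∘L ContinuousLinearMap.snd ℂ W W

def vA : W →L[ℂ] W × W :=
  ContinuousLinearMap.inl ℂ W W ∘L p +
    ContinuousLinearMap.inr ℂ W W ∘L (ContinuousLinearMap.id ℂ W - p)

def uB : W →L[ℂ] W × W :=
  ContinuousLinearMap.inl ℂ W W ∘L (ContinuousLinearMap.id ℂ W - p) -
    ContinuousLinearMap.inr ℂ W W ∘L p

def vB : W × W →L[ℂ] W :=
  (ContinuousLinearMap.id ℂ W - p) ∘L ContinuousLinearMap.fst ℂ W W -
    p ∘L ContinuousLinearMap.snd ℂ W W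

variable {p}

theorem opsA (hp : ∀ w, p (p w) = p w) (w : W) :
    vA p ∘L uA p = p.prodMap (ContinuousLinearMap.id ℂ W - p) ∧
      uA p ∘L vA p = ContinuousLinearMap.id ℂ W ∧ uA p (p w, w - p w) = w := by
  refine ⟨ContinuousLinearMap.ext fun w => Prod.ext ?_ ?_,
    ContinuousLinearMap.ext fun w => ?_, ?_⟩ <;> simp [hp, uA, vA]

theorem opsB (hp : ∀ w, p (p w) = p w) (w : W) :
    vB p ∘L uB p = ContinuousLinearMap.id ℂ W ∧
      uB p ∘L vB p = (ContinuousLinearMap.id ℂ W - p).prodMap p ∧ uB p w = (w - p w, -p w) := by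
  refine ⟨ContinuousLinearMap.ext fun w => ?_,
    ContinuousLinearMap.ext fun w => Prod.ext ?_ ?_, Prod.ext ?_ ?_⟩ <;> simp [hp, uB, vB]

theorem ops_cont {q : X → W →L[ℂ] W} (hq : Continuous q) :
    Continuous (fun x => uA (q x)) ∧ Continuous (fun x => vA (q x)) ∧
      Continuous (fun x => uB (q x)) ∧ Continuous fun x => vB (q x) :=
  ⟨(hq.clm_comp continuous_const).add ((continuous_const.sub hq).clm_comp continuous_const),
    (continuous_const.clm_comp hq).add (continuous_const.clm_comp (continuous_const.sub hq)),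
    (continuous_const.clm_comp (continuous_const.sub hq)).sub (continuous_const.clm_comp hq),
    ((continuous_const.sub hq).clm_comp continuous_const).sub (hq.clm_comp continuous_const)⟩

end ops

section

variable {ξ : Bun X} {π : C(E, X)} {t : C(E, ξ.W)} {ρ : C(X × ξ.W, E)}

theorem rho_tot (H : IsTot ξ π t) (h1 : ∀ z, π (ρ z) = z.1) (h2 : ∀ z, t (ρ z) = ξ.p z.1 z.2)
    (e : E) : ρ (π e, t e) = e := tot_ext H (h1 _) ((h2 _).trans (tot_sec H e))

theorem tw_rho (H : IsTot ξ π t) (h1 : ∀ z, π (ρ z) = z.1) (h2 : ∀ z, t (ρ z) = ξ.p z.1 z.2) :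
    Tw ρ (ξ.perp.pull ContinuousMap.fst) (csec ξ) := by
  refine tw_of_inv (T := Unit) ρ (ξ.perp.pull ContinuousMap.fst) (csec ξ)
    ((π.prodMk t).comp ContinuousMap.fst) (ContinuousMap.const _ ()) (fun z => ?_)
    (fun z => sub_eq_zero.2 (tot_sec H z.1).symm) (fun z => rho_tot H h1 h2 z.1) (fun _ => rfl)
    fun z hz => Prod.ext (h1 z) ((h2 z).trans (sub_eq_zero.1 hz).symm)
  change csec ξ z - ξ.p z.1 (csec ξ z) = csec ξ z
  rw [csec_apply, map_sub, idem, sub_self, sub_zero]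

/-- The bundle that carries the rotation. -/
abbrev zeta (ξ : Bun X) (π : C(E, X)) : Bun (E × ξ.W) :=
  ((ξ.perp.pull ContinuousMap.fst).pull (π.prodMap (ContinuousMap.id ξ.W))).sum
    ((ξ.pull π).pull ContinuousMap.fst)

/-- The base map of the rotation. -/
def rotG (π : C(E, X)) (t : C(E, ξ.W)) (ρ : C(X × ξ.W, E)) : C((E × ξ.W) × unitInterval, E) :=
  ρ.comp ⟨fun z => (π z.1.1, (1 - al z.2) • z.1.2 + al z.2 • t z.1.1), by
    have := al_cont
    fun_prop⟩

theorem rotG_apply (z : (E × ξ.W) × unitInterval) :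
    rotG π t ρ z = ρ (π z.1.1, (1 - al z.2) • z.1.2 + al z.2 • t z.1.1) := rfl

/-- The section of the rotation. -/
def rotS (π : C(E, X)) (t : C(E, ξ.W)) : C((E × ξ.W) × unitInterval, ξ.W × ξ.W) :=
  ⟨fun z => (z.1.2 - ξ.p (π z.1.1) z.1.2, (1 - al z.2) • t z.1.1 - al z.2 • ξ.p (π z.1.1) z.1.2), by
    have := al_cont
    have : Continuous fun z : (E × ξ.W) × unitInterval => ξ.p (π z.1.1) z.1.2 :=
      Continuous.clm_apply (by fun_prop) (by fun_prop)
    fun_prop⟩

theorem rotS_apply (z : (E × ξ.W) × unitInterval) : rotS π t z =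
    (z.1.2 - ξ.p (π z.1.1) z.1.2, (1 - al z.2) • t z.1.1 - al z.2 • ξ.p (π z.1.1) z.1.2) := rfl

/-- The parametrisation of the zero set of the rotation. -/
def rotA (π : C(E, X)) (t : C(E, ξ.W)) (ρ : C(X × ξ.W, E)) :
    C(E × unitInterval, (E × ξ.W) × unitInterval) :=
  ⟨fun z => ((ρ (π z.1, (al z.2 * (den z.2)⁻¹) • t z.1), ((1 - al z.2) * (den z.2)⁻¹) • t z.1),
      z.2), by
    have := al_cont
    have : Continuous fun z : E × unitInterval => (den z.2)⁻¹ :=
      (den_cont.comp continuous_snd).inv₀ fun z => den_ne z.2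
    fun_prop⟩

theorem rotA_apply (z : E × unitInterval) : rotA π t ρ z =
    ((ρ (π z.1, (al z.2 * (den z.2)⁻¹) • t z.1), ((1 - al z.2) * (den z.2)⁻¹) • t z.1), z.2) := rfl

theorem tw_rot (H : IsTot ξ π t) (h1 : ∀ z, π (ρ z) = z.1) (h2 : ∀ z, t (ρ z) = ξ.p z.1 z.2) :
    Tw (rotG π t ρ) ((zeta ξ π).pull ContinuousMap.fst) (rotS π t) := by
  refine tw_of_inv _ ((zeta ξ π).pull ContinuousMap.fst) (rotS π t) (rotA π t ρ) ContinuousMap.snd
    (fun z => ?_) (fun z => ?_) (fun z => ?_) (fun _ => rfl) fun z hz => ?_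
  · change ((rotS π t z).1 - ξ.p (π z.1.1) (rotS π t z).1, ξ.p (π z.1.1) (rotS π t z).2) = _
    simp only [rotS_apply, map_sub, map_smul, idem, tot_sec H, sub_self, sub_zero]
  · change rotS π t (rotA π t ρ z) = 0
    simp only [rotS_apply, rotA_apply, h1, h2, map_smul, tot_sec H, sub_self]
    refine Prod.ext rfl ?_
    change _ = (0 : ξ.W)
    module
  · refine tot_ext H ((h1 _).trans (h1 _)) ?_
    simp only [rotG_apply, rotA_apply, h1, h2, map_smul, map_add, tot_sec H, smul_smul]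
    have : (1 - al z.2) * ((1 - al z.2) * (den z.2)⁻¹) + al z.2 * (al z.2 * (den z.2)⁻¹) = 1 := by
      have hd := mul_inv_cancel₀ (den_ne z.2)
      rw [den] at hd ⊢
      linear_combination hd
    rw [← add_smul, this, one_smul]
  · have hz' : rotS π t z = 0 := hz
    rw [rotS_apply, Prod.mk_eq_zero, sub_eq_zero, sub_eq_zero] at hz'
    have z1 : ξ.p (π z.1.1) z.1.2 = z.1.2 := hz'.1.symm
    have z2 : (1 - al z.2) • t z.1.1 = al z.2 • z.1.2 := by rw [hz'.2, z1]
    have g1 : π (rotG π t ρ z) = π z.1.1 := h1 _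
    have g2 : t (rotG π t ρ z) = (1 - al z.2) • z.1.2 + al z.2 • t z.1.1 := by
      simp only [rotG_apply, h2, map_smul, map_add, tot_sec H, z1]
    have hd := den_ne z.2
    have e1 : (al z.2 * (den z.2)⁻¹) • t (rotG π t ρ z) = t z.1.1 := by
      rw [mul_comm, mul_smul, inv_smul_eq_iff₀ hd, g2, den]
      linear_combination (norm := module) (-(1 - al z.2)) • z2
    have e2 : ((1 - al z.2) * (den z.2)⁻¹) • t (rotG π t ρ z) = z.1.2 := by
      rw [mul_comm, mul_smul, inv_smul_eq_iff₀ hd, g2, den]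
      linear_combination (norm := module) (al z.2) • z2
    rw [rotA_apply]
    refine Prod.ext (Prod.ext ?_ e2) rfl
    change ρ (π (rotG π t ρ z), (al z.2 * (den z.2)⁻¹) • t (rotG π t ρ z)) = z.1.1
    rw [e1, g1, rho_tot H h1 h2]

theorem al_zero : al 0 = 0 := by simp [al]

theorem al_one : al 1 = 1 := by simp [al]

variable [Fact Core]

theorem left_inv (A : Api) (H : IsTot ξ π t) (h1 : ∀ z, π (ρ z) = z.1)
    (h2 : ∀ z, t (ρ z) = ξ.p z.1 z.2) (y : h X) :
    pushV ξ.W (twist ρ (ξ.perp.pull ContinuousMap.fst) (csec ξ) (twist π (ξ.pull π) t y)) = y := by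
  have hp : Continuous fun z : X × ξ.W => ξ.p z.1 := ξ.p.continuous.comp continuous_fst
  obtain ⟨k1, k2⟩ := A.tw.twist_twist ρ _ _ π _ _ (tw_rho H h1 h2) (tot_tw H)
  have e : π.comp ρ = ContinuousMap.fst := ContinuousMap.ext h1
  obtain ⟨-, k3⟩ := A.tw.iso (π.comp ρ) _ (Bun.triv _ ξ.W) _ ContinuousMap.snd
    ⟨fun z => uA (ξ.p z.1), (ops_cont hp).1⟩ ⟨fun z => vA (ξ.p z.1), (ops_cont hp).2.1⟩ k1
    (fun z => by
      have := opsA (idem ξ z.1) z.2
      refine ⟨this.1.trans ?_, this.2.1, Eq.trans ?_ this.2.2⟩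
      · change _ = (ξ.p (π (ρ z))).prodMap _
        rw [h1]
        rfl
      · change uA (ξ.p z.1) (t (ρ z), _) = _
        rw [h2]
        rfl)
  have k4 := (k2 y).trans (k3 y)
  rw [e] at k4
  exact (congrArg (pushV ξ.W) k4).trans ((A.pv.th ξ.W).2 y)

theorem right_inv (A : Api) (H : IsTot ξ π t) (h1 : ∀ z, π (ρ z) = z.1)
    (h2 : ∀ z, t (ρ z) = ξ.p z.1 z.2) (y : h E) :
    twist π (ξ.pull π) t (pushV ξ.W (twist ρ (ξ.perp.pull ContinuousMap.fst) (csec ξ) y)) = y := by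
  have hq : Continuous fun z : E × ξ.W => ξ.p (π z.1) :=
    ξ.p.continuous.comp (π.continuous.comp continuous_fst)
  obtain ⟨k1, k2⟩ := A.pv.twist ξ.W π _ t (tot_tw H)
  obtain ⟨-, k3⟩ := A.tw.twist_twist _ _ _ ρ _ _ k1 (tw_rho H h1 h2)
  let σ₁ : C(E × ξ.W, (zeta ξ π).W) := ⟨fun z => (z.2 - ξ.p (π z.1) z.2, -ξ.p (π z.1) z.2),
    (continuous_snd.sub (hq.clm_apply continuous_snd)).prodMk (hq.clm_apply continuous_snd).neg⟩
  obtain ⟨-, k4⟩ := A.tw.iso ContinuousMap.fst (Bun.triv _ ξ.W) (zeta ξ π) ContinuousMap.snd σ₁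
    ⟨fun z => uB (ξ.p (π z.1)), (ops_cont hq).2.2.1⟩
    ⟨fun z => vB (ξ.p (π z.1)), (ops_cont hq).2.2.2⟩ (A.pv.th ξ.W).1
    fun z => opsB (idem ξ (π z.1)) z.2
  have k5 := A.tw.htpy (rotG π t ρ) (zeta ξ π) (rotS π t)
    (ρ.comp (π.prodMap (ContinuousMap.id ξ.W))) ContinuousMap.fst
    (((csec ξ).comp (π.prodMap (ContinuousMap.id ξ.W))).prodMk (t.comp ContinuousMap.fst)) σ₁
    (tw_rot H h1 h2)
    (fun z => by
      simp only [rotG_apply, rotS_apply, al_zero, sub_zero, one_smul, zero_smul, add_zero]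
      exact ⟨rfl, rfl⟩)
    (fun z => by
      simp only [rotG_apply, rotS_apply, al_one, sub_self, one_smul, zero_smul, zero_add, zero_sub]
      exact ⟨rho_tot H h1 h2 _, rfl⟩)
  exact ((k2 _).trans (congrArg (pushV ξ.W) ((k3 y).trans ((k5 y).trans (k4 y).symm)))).trans
    ((A.pv.th ξ.W).2 y)

theorem thom0 (A : Api) (H : IsTot ξ π t) : Function.Bijective (twist π (ξ.pull π) t) := by
  obtain ⟨ρ, h1, h2⟩ := ex_rho H
  exact Function.bijective_iff_has_inverse.2
    ⟨fun y => pushV ξ.W (twist ρ (ξ.perp.pull ContinuousMap.fst) (csec ξ) y), left_inv A H h1 h2,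
      right_inv A H h1 h2⟩

end

theorem thom [Fact Core] (A : Api) : S_Thom := fun _ _ _ H =>
  ⟨tot_tw H, thom0 A H, (thom0 A H).prodMap (thom0 A (tot_R H))⟩

end

end Pool.Agent.MP_826def_gt.BT
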